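import Pool.Agent.X240.SH.Ap

/-!
# Shortest paths: nondeterministic machines with slow heads

A directed graph with `V` vertices and weights in `{1, ..., V ^ 2}` is given by its adjacency matrix,
row by row (`apword`): each cell contains the edge flag and `w` binary digits of the weight, so the
input is a word of `N = V ^ 2 (w + 1)` bits. Nonuniform nondeterministic programs with `k` two-way
heads, which move by at most one position in a step, with at most `2 ^ S` configurations, which
accept the graphs in which every edge is a shortest path within `T` steps and accept no graph with
an edge that is longer than a path of two edges, satisfy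
`V ^ 2 N ^ 2 ≤ 2 * 10 ^ 8 k (S + 1) (k T + N) ^ 2`. So if `k` is bounded then
`T ≥ c V ^ 3 (w + 1) / sqrt (S + 1)` for large `V` and `S = o(V ^ 2)`: with space `V ^ o(1)` they need
time `V ^ (3 - o(1))`, and with space `V ^ (2 - c)` more than quadratic time. The same holds for
deterministic programs which decide whether some edge is longer than the distance of its ends (or
than some path of two edges), so for all that can be read off from the distances.

Proof. Let `M` be about `V / 4`, and let `q = c - i - j` for `i, c` in `{0, ..., M - 1}` and `j` in
`{-M, ..., M - 1}`. As `q ^ 2` is a sum of functions of two of the three numbers, there are weights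
`A i c`, `B c j`, `C i j` such that `A i c + B c j - C i j = 2 q ^ 2 + x i c - y i c'`, where the bit `x i c`
is stored in `A i c` and the bit `y i' c` with `i' = c - j` is stored in `B c j`. So the path `i, c, j`
is shorter than the edge from `i` to `j` iff `q = 0`, `x i c = 0` and `y i c = 1`. The program has to
verify that `y ≤ x`, where `x` is stored row by row and `y` column by column: each zone of the second
part has bits in common with all zones of the first part. If `x = y` then for most zones `b` of the
second part most zones of the first part are not visited at about the same time as `b`; the
configurations at the entries to and exits from `b` and the set of these zones determine all bits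
which `b` shares with them (`Pool.Agent.X240.SH.FoolS`, `Pool.Agent.X240.SH.Matched`).
-/

set_option autoImplicit false

namespace Pool.Agent.Results.MP_885423_lc.NondeterministicSlowHeads

open Pool.Agent.TH457.HT Pool.Agent.X240.SH

/-- Let `P` be a nondeterministic program with `k ≥ 1` two-way heads for words of
`N = V * (V * (w + 1))` bits and with at most `2 ^ S` configurations. If for all directed graphs `e`
with weights `x` between `1` and `V ^ 2` in which every edge is a shortest path the word is accepted by
some computation of at most `T` steps, and if for those with an edge that is longer than a path of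
two edges the word is accepted by no computation, then
`V ^ 2 * N ^ 2 ≤ 200000000 * k * (S + 1) * (k * T + N) ^ 2`. -/
theorem result (V w k T S : ℕ) (P : HeadProg Bool (V * (V * (w + 1))) k) (hk : 1 ≤ k)
    (hS : Fintype.card P.Q * (V * (V * (w + 1))) ^ k ≤ 2 ^ S)
    (hacc : ∀ (e : Fin V → Fin V → Bool) (x : Fin V → Fin V → ℕ),
      (∀ u v, 1 ≤ x u v ∧ x u v ≤ V ^ 2) → EdgesShortest e x → P.AcceptsIn T (apword V w e x))
    (hsound : ∀ (e : Fin V → Fin V → Bool) (x : Fin V → Fin V → ℕ),
      (∀ u v, 1 ≤ x u v ∧ x u v ≤ V ^ 2) → Shortcut e x → ¬ P.Accepts (apword V w e x)) :
    V ^ 2 * (V * (V * (w + 1))) ^ 2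
      ≤ 200000000 * (k * (S + 1) * (k * T + V * (V * (w + 1))) ^ 2) :=
  ap_nondet V w k T S P hk hS hacc hsound

end Pool.Agent.Results.MP_885423_lc.NondeterministicSlowHeads
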