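import Mathlib
import Pool.Agent.X240.MP.Net

/-!
# Shortest paths: nondeterministic networks which test real formulas

A directed graph has three layers of `n` vertices and the edge weights `A i k` (first to second
layer), `B k j` (second to third layer) and `C i j` (first to third layer), integers in
`{1, …, n + 1}`. Is some edge `i → j` longer than a path `i → k → j`? The items of the input are the
weights of all edges at `i`, for each vertex `i` of the first layer, and the matrix `B`.

A real formula (`Fml`) is built from real constants, arbitrary real functions of one item, and
arbitrary real functions of `w` words of length `c log₂ n`, where each word is an arbitrary function of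
one item, by sums, products, sign tests `pos`, and gates `sym` of any fan-in whose value is an
arbitrary real function of the number of positive inputs. A network (`Net`) is a nondeterministic
branching program, possibly with cycles: nodes, free edges, and edges which are guarded by real
formulas; it accepts if some path leads from the start node to the end node over edges which are open.
Its size is the number of guarded edges plus the sizes of their formulas; nodes and free edges are not
counted.

We show for `n ≥ 256` that random networks (Arthur-Merlin type: first the random choice, then the
guesses) of size at most `s` which accept the graphs with such a shortcut, or which accept the graphs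
without a shortcut, with error probability at most `1 / 3`, need
`n ^ 3 log₂ n ≤ 5000 w (n √(log₂ n) + 83 c w log₂ n) s`, that is, size of the order
`n ^ 2 √(log n)` if `w` is bounded and `c` is at most of the order `n / √(log n)`.

Proof. The weights at `i` can ask for each of the `n ^ 2 ⌊log₂ n⌋` bits of the matrix `B` by binary
search (`Pool.Agent.Y638.RF.MinPlus.asks`, after helper697). If a network has `r` leaves which see these
weights, then the reachability between the end points of the `r` edges gives `2 ^ O (r ^ 2)`
possibilities, and the formulas on these edges take `2 ^ O (r log n)` different functions of the
relevant weights (Warren's bound, `Pool.Agent.Y638.RF.Core`). So `r` is of the order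
`n √(log n)` for every one of the `n` vertices.
-/

set_option autoImplicit false

namespace Pool.Agent.Results.MP_885423_lc.RealNetworks

open Pool.Agent.TH697.Form (IsProb)
open Pool.Agent.TH697.Row (ApproximatesOn)
open Pool.Agent.TH697.Form.MinPlus (Item InRange shortcut)
open Pool.Agent.Y638.RF (Net)

theorem result : ∀ n c w : ℕ, 256 ≤ n → 1 ≤ c → 1 ≤ w →
    ∀ (Ω : Type) [Fintype Ω] (μ : Ω → ℝ), IsProb μ →
      ∀ (s : ℕ) (N : Ω → Net (Option (Fin n)) (Item n) w (n ^ c)),
        (∀ ω, (N ω).size ≤ s) →
        (ApproximatesOn μ (fun ω => (N ω).eval) (InRange n (n + 1)) (shortcut n) ∨
          ApproximatesOn μ (fun ω x => !(N ω).eval x) (InRange n (n + 1)) (shortcut n)) →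
        (n : ℝ) ^ 3 * Real.logb 2 n ≤
          5000 * w * (n * √(Real.logb 2 n) + 83 * c * w * Real.logb 2 n) * s :=
  fun _ _ _ hn hc hw _ _ μ hμ s N hs hN => Pool.Agent.X240.MP.net_bound hn hc hw μ hμ s N hs hN

end Pool.Agent.Results.MP_885423_lc.RealNetworks
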