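import Pool.Agent.X240.SH.WiM

/-!
# Shortest paths: randomized machines with slow heads

A complete directed graph with `V` vertices and weights in `{1, ..., V ^ 2}` is given by the matrix of
its weights, row by row, with `w + 1` binary digits for each weight (`adword`), so the input is a word
of `N = V ^ 2 (w + 1)` bits. Randomized nonuniform programs with `k` two-way heads, which move by at
most one position in a step, with at most `2 ^ S` configurations, which find within `T` steps, with
error probability at most one third on every input, the last bit of the sum of all `V (V - 1)`
distances, satisfy `V ^ 2 N ^ 2 ≤ 2 * 10 ^ 8 k (S + 1) (k T + N) ^ 2`. So if `k` is bounded then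
`T ≥ c V ^ 3 (w + 1) / sqrt (S + 1)` for large `V` and `S = o(V ^ 2)`: with space `V ^ o(1)` the time is
at least `V ^ (3 - o(1))`, and with space `V ^ (2 - c)` it is more than quadratic. The same holds for
programs which print all distances in any order, as they can add the last bits on the way.

Proof. Let `M` be about `V / 4`, and let `q = c - i - j` for `i, c` in `{0, ..., M - 1}` and `j` in
`{-M, ..., M - 1}`. As `q ^ 2` is a sum of functions of two of the three numbers, there are weights
such that the path `i, c, j` is longer by `2 q ^ 2 + x i c + y i' c - 1` than the edge from `i` to `j`,
where the bit `x i c` is stored in the weight of `(i, c)` and the bit `y i' c`, `i' = c - j`, in the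
weight of `(c, j)`. So the distance of `i` and `j` is a constant plus the disjunction of `x i c` and
`y i c`, `c = i + j`, and the sum of all distances is, modulo two, a constant plus the inner product of
`x` and `y`. The first matrix is stored row by row and the second column by column: each zone of the
second part has products with all zones of the first part. For a deterministic program the inputs with
the same transcript of a zone `b` (the configurations at the beginning and at the end of the windows in
which it is visited) form, for the bits of `b` and of the zones which are not visited in these windows,
a rectangle on which the answer depends on the first matrix only. So by the lemma of Lindsey the answer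
is right for hardly more than half of the inputs with a short transcript of `b`, and for most zones `b`
the transcripts are short (`Pool.Agent.X240.SH.IPW`, `IPL`, `IPE`, `IPE2`, `MatchedIP`).
-/

set_option autoImplicit false

namespace Pool.Agent.Results.MP_885423_lc.SlowHeads

open Pool.Agent.TH457.HT Pool.Agent.X240.SH

/-- Let `p`, `P` be a random program with `k ≥ 1` two-way heads for words of `N = V * (V * (w + 1))`
bits and with at most `2 ^ S` configurations.  If for all weights `x` between `1` and `V ^ 2` of the
complete directed graph with `V` vertices the answer within `T` steps is with probability at least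
`2 / 3` the last bit of the sum of all distances, then
`V ^ 2 * N ^ 2 ≤ 200000000 * k * (S + 1) * (k * T + N) ^ 2`. -/
theorem result (V w k T S : ℕ) (Ω : Type) [Fintype Ω] (p : Ω → ℝ)
    (P : Ω → DetProg Bool (V * (V * (w + 1))) k)
    (hp : ∀ ω, 0 ≤ p ω) (hp1 : ∑ ω, p ω = 1) (hk : 1 ≤ k)
    (hS : ∀ ω, Fintype.card (P ω).Q * (V * (V * (w + 1))) ^ k ≤ 2 ^ S)
    (h : ∀ x : Fin V → Fin V → ℕ, (∀ u v, 1 ≤ x u v ∧ x u v ≤ V ^ 2) →
      2 / 3 ≤ prob p P T (adword V w x) (decide (distSum x % 2 = 1))) :
    V ^ 2 * (V * (V * (w + 1))) ^ 2
      ≤ 200000000 * (k * (S + 1) * (k * T + V * (V * (w + 1))) ^ 2) :=
  Wi.wi_rand V w k T S p hp hp1 P hk hS h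

end Pool.Agent.Results.MP_885423_lc.SlowHeads
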